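import Pool.Agent.U297.GD.Poly
import Pool.Agent.N13.EU.Odd
import Pool.Agent.N13.PL.All
import Pool.Agent.N13.VB.Main

/-!
# The degree of the `γ`-polynomial and the top degree of the `ℓ²`-homology of the special subgroups
-/

set_option autoImplicit false
set_option linter.unusedSectionVars false

namespace Pool.Agent.U297.GD

open Pool.Agent.W907.SG Pool.Agent.W907.SM Pool.Agent.TH652.Above Pool.Agent.R703.CW
open Pool.Agent.Y132.SI Pool.Agent.N13.EU Pool.Agent.N13.PL
open Polynomial (X C)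

open Classical in
/-- the sum of the Euler characteristics of the right-angled Coxeter groups of the links of all the simplices with
`j` vertices -/
noncomputable def chiSum {V : Type} [Fintype V] (G : SimpleGraph V) (j : ℕ) : ℚ :=
  ∑ T : Finset V, if G.IsClique (T : Set V) ∧ T.card = j then chiL G T else 0

theorem chiSum_eq {V : Type} [Fintype V] (G : SimpleGraph V) (j : ℕ) :
    chiSum G j = (Polynomial.hasseDeriv j (fpoly G)).eval (-1 / 2 : ℚ) := by
  rw [Tay.hasse_fpoly, ← Tay.sum_eq]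
  rfl

section Fin

variable {V : Type} [Fintype V] [LinearOrder V] {G : SimpleGraph V} {n g : ℕ} {c : ℕ → ℚ}

theorem fpoly_eval (x : ℚ) : (fpoly G).eval x = Pool.Agent.W497.FS.fe G Finset.univ x := by
  classical
  have h1 : ∀ S : Finset V, Polynomial.eval x (if G.IsClique (S : Set V) then
      (X : Polynomial ℚ) ^ S.card else 0) = if G.IsClique (S : Set V) then x ^ S.card else 0 := by
    intro S
    split_ifs
    · rw [Polynomial.eval_pow, Polynomial.eval_X]
    · rw [Polynomial.eval_zero]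
  rw [Pool.Agent.W497.FS.fe]
  have h2 : (fpoly G).eval x = ∑ S : Finset V, if G.IsClique (S : Set V) then x ^ S.card else 0 := by
    unfold fpoly
    rw [Polynomial.eval_finsetSum]
    refine Finset.sum_congr rfl fun S _ => ?_
    convert h1 S
  rw [h2, ← Finset.sum_filter]
  refine Finset.sum_congr ?_ fun _ _ => rfl
  ext T
  rw [Finset.mem_filter, mem_cl_univ]
  exact ⟨fun h => h.2, fun h => ⟨Finset.mem_univ _, h⟩⟩

theorem fpoly_sym (hS : HSph n G) : (fpoly G).comp (-1 - X) = (-1) ^ n * fpoly G := by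
  refine Polynomial.funext fun x => ?_
  have h := (flagEul_of_hsph hS).eul.ds x
  have e : Polynomial.eval x (-1 - X : Polynomial ℚ) = -1 - x := by simp
  have e2 : Polynomial.eval x ((-1 : Polynomial ℚ) ^ n) = (-1) ^ n := by simp
  rw [Polynomial.eval_comp, Polynomial.eval_mul, e, e2, fpoly_eval, fpoly_eval]
  exact h

theorem fpoly_deg (hS : HSph n G) : (fpoly G).natDegree ≤ n := by
  classical
  unfold fpoly
  refine Polynomial.natDegree_sum_le_of_forall_le _ _ fun S _ => ?_
  split_ifs with h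
  · rw [Polynomial.natDegree_X_pow]
    exact card_le_of_hsph hS S h
  · simp

theorem fpoly_ne : fpoly G ≠ 0 := by
  classical
  intro h
  have h1 : (fpoly G).eval 0 = 1 := by
    unfold fpoly
    rw [Polynomial.eval_finsetSum, Finset.sum_eq_single ∅]
    · rw [if_pos (by simp)]
      simp
    · intro S _ hS
      split_ifs
      · rw [Polynomial.eval_pow, Polynomial.eval_X, zero_pow]
        exact fun h0 => hS (Finset.card_eq_zero.1 h0)
      · rw [Polynomial.eval_zero]
    · intro h0
      exact absurd (Finset.mem_univ _) h0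
  rw [h] at h1
  simp at h1

/-- the `γ`-polynomial exists -/
theorem exists_gamma (hS : HSph n G) :
    ∃ (g : ℕ) (c : ℕ → ℚ), 2 * g ≤ n ∧ c g ≠ 0 ∧ fpoly G = gsum n (g + 1) c := by
  obtain ⟨c, hc⟩ := exists_gam n (fpoly G) (fpoly_deg hS) (fpoly_sym hS)
  obtain ⟨g, h1, h2, h3⟩ := exists_top fpoly_ne c (n / 2) hc
  exact ⟨g, c, by omega, h2, h3⟩

/-- the sum of the Euler characteristics of the links of the faces with `n - 2 g` vertices -/
theorem sum_top (hg : 2 * g ≤ n) (h : fpoly G = gsum n (g + 1) c) :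
    chiSum G (n - 2 * g) = (-1) ^ g * (2 ^ (n - 2 * g) / 4 ^ g) * c g := by
  rw [chiSum_eq, h, hasse_gsum hg]

/-- no hypothesis on the `ℓ²`-homology: some link has nonzero `ℓ²`-homology in a degree `≥ g` -/
theorem uncond (hS : HSph n G) (hg : 2 * g ≤ n) (hc : c g ≠ 0) (h : fpoly G = gsum n (g + 1) c) :
    ∃ T : Finset V, G.IsClique (T : Set V) ∧ T.card + 2 * g = n ∧ chiL G T ≠ 0 ∧
      ∃ i, g ≤ i ∧ ¬ LV (G.induce (lk G T)) i := by
  classical
  have hne : chiSum G (n - 2 * g) ≠ 0 := by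
    rw [sum_top hg h]
    positivity
  unfold chiSum at hne
  obtain ⟨T, -, hT⟩ := Finset.exists_ne_zero_of_sum_ne_zero hne
  split_ifs at hT with h1
  · refine ⟨T, h1.1, by omega, hT, ?_⟩
    by_contra hcon
    push Not at hcon
    refine hT (chi_of t_BR h1.1 fun i => ?_)
    rcases le_or_gt g i with hi | hi
    · exact hcon i hi
    · have h2 := hsph_link hS T h1.1
      rw [show n - T.card = 2 * g by omega] at h2
      exact Pool.Agent.N13.EU.lv_of (Pool.Agent.TH652.Dual.l2_duality (n := 2 * g) h2 (i := i) (j := 2 * g - i) (by omega)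
        (hcon (2 * g - i) (by omega) _ _))
  · exact absurd rfl hT

/-- the degree of the `γ`-polynomial is at most its linear coefficient -/
theorem gamma_one (hS : HSph n G) (hg : 2 * g ≤ n) (hc : c g ≠ 0) (h : fpoly G = gsum n (g + 1) c) :
    2 * n + g ≤ Fintype.card V := by
  obtain ⟨T, -, -, -, i, hi, hn⟩ := uncond hS hg hc h
  by_contra hlt
  exact hn ((Pool.Agent.N13.VB.main n V G hS).2 _ i (by omega))

theorem dvd_top (hg : 2 * g ≤ n) (h : fpoly G = gsum n (g + 1) c) :
    (1 + 2 * X : Polynomial ℚ) ^ (n - 2 * g) ∣ fpoly G :=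
  gam_dvd hg _ c h

/-- hereditary vanishing above the middle: the top degree is `g` -/
theorem van_top (hS : HSph n G) (hH : Hered n G) (hg : 2 * g ≤ n)
    (h : fpoly G = gsum n (g + 1) c) (A : Finset V) (i : ℕ) (hi : g < i) :
    L2Van (G.induce (A : Set V)) i :=
  (zeros hS hH (n - 2 * g)).2.1 (dvd_top hg h) A i (by omega)

theorem link_top (hS : HSph n G) (hH : Hered n G) {T : Finset V} (hT : G.IsClique (T : Set V))
    (hTg : T.card + 2 * g = n) :
    0 ≤ (-1 : ℚ) ^ g * chiL G T ∧ (∀ i, i ≠ g → LV (G.induce (lk G T)) i) ∧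
      (chiL G T = 0 ↔ LV (G.induce (lk G T)) g) := by
  have hA := abv_of_hered hS hH
  have h1 : ∀ i, i ≠ g → LV (G.induce (lk G T)) i := fun i hi => sing_link hS hT (hA T hT) (by omega)
  refine ⟨chi_sgn t_BR hS hT (hA T hT) (by omega), h1, fun h0 => sing_chi t_BR hS hT (hA T hT) h0 g,
    fun h0 => chi_of t_BR hT fun i => ?_⟩
  by_cases hi : i = g
  · subst hi
    exact h0
  · exact h1 i hi

theorem pos_top (hS : HSph n G) (hH : Hered n G) (hg : 2 * g ≤ n) (hc : c g ≠ 0)
    (h : fpoly G = gsum n (g + 1) c) : 0 < c g := by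
  classical
  have h1 : 0 ≤ (-1 : ℚ) ^ g * chiSum G (n - 2 * g) := by
    unfold chiSum
    rw [Finset.mul_sum]
    refine Finset.sum_nonneg fun T _ => ?_
    split_ifs with hT
    · exact (link_top hS hH hT.1 (by omega)).1
    · rw [mul_zero]
  have h2 := sum_top hg h
  have h3 : (-1 : ℚ) ^ g * chiSum G (n - 2 * g) = 2 ^ (n - 2 * g) / 4 ^ g * c g := by
    have e : (-1 : ℚ) ^ g * (-1) ^ g = 1 := by
      rw [← mul_pow]
      norm_num
    calc _ = (-1 : ℚ) ^ g * ((-1) ^ g * (2 ^ (n - 2 * g) / 4 ^ g) * c g) := by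
          rw [← h2]
      _ = ((-1 : ℚ) ^ g * (-1) ^ g) * (2 ^ (n - 2 * g) / 4 ^ g * c g) := by ring
      _ = _ := by rw [e, one_mul]
  rw [h3] at h1
  have h4 : (0 : ℚ) < 2 ^ (n - 2 * g) / 4 ^ g := by positivity
  exact lt_of_le_of_ne (nonneg_of_mul_nonneg_right h1 h4) (Ne.symm hc)

/-- growth of the Betti numbers above the degree of the `γ`-polynomial -/
theorem growth_top (hS : HSph n G) (hH : Hered n G) (hg : 2 * g ≤ n)
    (h : fpoly G = gsum n (g + 1) c) (A : Finset V) (ε : ℝ) (hε : 0 < ε) :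
    ∃ E : Finset (W (G.induce (A : Set V))), (1 : W (G.induce (A : Set V))) ∉ E ∧
      ∀ H : Subgroup (W (G.induce (A : Set V))), H.FiniteIndex →
        (∀ g ∈ E, ∀ x : W (G.induce (A : Set V)), x * g * x⁻¹ ∉ H) → ∀ i : ℕ, g < i →
        (Module.finrank ℝ (HInv (G.induce (A : Set V)) H i) : ℝ) ≤ ε * H.index := by
  obtain ⟨E, h1, h2⟩ := growth_zeros hS hH (n - 2 * g) (dvd_top hg h) A ε hε
  exact ⟨E, h1, fun H hH h3 i hi => h2 H hH h3 i (by omega)⟩

/-- flag homology spheres of dimension at most three -/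
theorem hered_four (hS : HSph n G) (hn : n ≤ 4) : Hered n G :=
  (hered_iff2 three hS).2 fun T m _ hm h2 => by omega

end Fin

/-- the `ℓ²`-homology of all special subgroups vanishes above the degree of the `γ`-polynomial -/
def GammaBound (N : ℕ) : Prop :=
  ∀ n ≤ N, ∀ (V : Type) [Fintype V] [LinearOrder V] (G : SimpleGraph V), HSph n G →
    ∀ (g : ℕ) (c : ℕ → ℚ), 2 * g ≤ n → c g ≠ 0 → fpoly G = gsum n (g + 1) c →
      ∀ (A : Finset V) (i : ℕ), g < i → L2Van (G.induce (A : Set V)) i

theorem singer_iff_gamma (N : ℕ) : Singer N ↔ GammaBound N := by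
  constructor
  · intro h n hn V _ _ G hS g c hg _ hf A i hi
    exact van_top hS (hered_of_singer h hn hS) hg hf A i hi
  · intro h
    refine (aboveAll_iff N).1 fun n hn V _ _ G hS A i hi => ?_
    obtain ⟨g, c, h1, h2, h3⟩ := exists_gamma hS
    exact h n hn V G hS g c h1 h2 h3 A i (by omega)

end Pool.Agent.U297.GD
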