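import Mathlib

/-!
# The expansion of symmetric polynomials in terms of `X^i (1 + X)^i (1 + 2 X)^(n - 2 i)`
-/

set_option autoImplicit false

namespace Pool.Agent.U297.GD

open Polynomial

/-- the sum of the first terms of the expansion -/
noncomputable def gsum (n m : ℕ) (c : ℕ → ℚ) : ℚ[X] :=
  ∑ i ∈ Finset.range m, C (c i) * (X ^ i * (1 + X) ^ i * (1 + 2 * X) ^ (n - 2 * i))

theorem X_dvd_of {g : ℚ[X]} (h0 : g.eval 0 = 0) (h1 : g.eval (-1) = 0) :
    X * (1 + X) ∣ g := by
  have hx : (X : ℚ[X]) ∣ g := by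
    rw [X_dvd_iff, coeff_zero_eq_eval_zero, h0]
  have hy : (1 + X : ℚ[X]) ∣ g := by
    have h2 : (X - C (-1 : ℚ)) ∣ g := dvd_iff_isRoot.2 h1
    rwa [map_neg, map_one, sub_neg_eq_add, add_comm] at h2
  have hc : IsCoprime (X : ℚ[X]) (1 + X) := ⟨-1, 1, by ring⟩
  exact hc.mul_dvd hx hy

theorem exists_gam : ∀ (n : ℕ) (f : ℚ[X]), f.natDegree ≤ n → f.comp (-1 - X) = (-1) ^ n * f →
    ∃ c : ℕ → ℚ, f = gsum n (n / 2 + 1) c := by
  intro n
  induction n using Nat.strong_induction_on with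
  | _ n ih =>
  intro f hd hs
  rcases n with _ | _ | n
  · refine ⟨fun _ => f.coeff 0, ?_⟩
    rw [gsum]
    simp only [Nat.zero_div, zero_add, Finset.sum_range_one, pow_zero, mul_one, Nat.mul_zero,
      Nat.sub_zero]
    exact Polynomial.eq_C_of_natDegree_le_zero hd
  · obtain ⟨a, b, h⟩ := Polynomial.exists_eq_X_add_C_of_natDegree_le_one (p := f) (by simpa using hd)
    have h1 := congrArg (eval 0) hs
    rw [eval_comp, h] at h1
    simp at h1
    refine ⟨fun _ => b, ?_⟩
    have ha : a = 2 * b := by linarith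
    rw [gsum, h, ha]
    simp only [zero_add, Nat.reduceDiv, Finset.sum_range_one, pow_zero, mul_one, Nat.mul_zero,
      Nat.sub_zero, one_mul, pow_one]
    rw [C_mul]
    have : (C (2 : ℚ) : ℚ[X]) = 2 := rfl
    rw [this]
    ring
  · set a : ℚ := f.eval 0 with ha
    set g : ℚ[X] := f - C a * (1 + 2 * X) ^ (n + 2) with hg
    have g0 : g.eval 0 = 0 := by
      rw [hg]; simp [ha]
    have g1 : g.eval (-1) = 0 := by
      have h1 := congrArg (eval 0) hs
      rw [eval_comp] at h1
      simp only [eval_sub, eval_neg, eval_one, eval_X, sub_zero, eval_mul, eval_pow] at h1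
      rw [hg, eval_sub, eval_mul, eval_C, eval_pow, eval_add, eval_mul, eval_X, eval_one,
        eval_ofNat, h1, ← ha]
      norm_num
      ring
    obtain ⟨h, hh⟩ := X_dvd_of g0 g1
    have gs : g.comp (-1 - X) = (-1) ^ (n + 2) * g := by
      rw [hg, sub_comp, hs, mul_comp, C_comp, pow_comp, add_comp, mul_comp, X_comp, one_comp]
      have e2 : (2 : ℚ[X]).comp (-1 - X) = 2 := by
        have : (2 : ℚ[X]) = C 2 := rfl
        rw [this, C_comp]
      rw [e2, show (1 + 2 * (-1 - X) : ℚ[X]) = (-1) * (1 + 2 * X) by ring, mul_pow]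
      ring
    have hs' : h.comp (-1 - X) = (-1) ^ n * h := by
      rw [hh, mul_comp, mul_comp, X_comp, add_comp, one_comp, X_comp] at gs
      have e : (X * (1 + X) : ℚ[X]) ≠ 0 := by
        intro h0
        have := congrArg (eval 1) h0
        simp at this
      apply mul_left_cancel₀ e
      calc X * (1 + X) * h.comp (-1 - X)
          = (-1 - X) * (1 + (-1 - X)) * h.comp (-1 - X) := by ring
        _ = (-1) ^ (n + 2) * (X * (1 + X) * h) := gs
        _ = X * (1 + X) * ((-1) ^ n * h) := by ring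
    have hd' : h.natDegree ≤ n := by
      rcases eq_or_ne h 0 with h0 | h0
      · rw [h0]; simp
      · have e1 : g.natDegree ≤ n + 2 := by
          rw [hg]
          refine (natDegree_sub_le _ _).trans (max_le (by simpa using hd) ?_)
          refine (natDegree_C_mul_le _ _).trans ?_
          refine (natDegree_pow_le).trans ?_
          have : (1 + 2 * X : ℚ[X]).natDegree ≤ 1 := by
            refine (natDegree_add_le _ _).trans (max_le (by simp) ?_)
            have : (2 : ℚ[X]) = C 2 := rfl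
            rw [this]
            exact (natDegree_C_mul_le _ _).trans natDegree_X_le
          nlinarith
        have e2 : (X * (1 + X) : ℚ[X]).natDegree = 2 := by
          have hx1 : (1 + X : ℚ[X]).natDegree = 1 := by
            rw [add_comm]
            exact natDegree_X_add_C (1 : ℚ)
          have hx1' : (1 + X : ℚ[X]) ≠ 0 := by
            intro h; rw [h] at hx1; simp at hx1
          rw [natDegree_mul X_ne_zero hx1', hx1, natDegree_X]
        have e3 : (X * (1 + X) : ℚ[X]) ≠ 0 := by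
          intro h; rw [h] at e2; simp at e2
        rw [hh, natDegree_mul e3 h0, e2] at e1
        omega
    obtain ⟨b, hb⟩ := ih n (by omega) h hd' hs'
    refine ⟨fun i => Nat.casesOn i a b, ?_⟩
    have e4 : f = C a * (1 + 2 * X) ^ (n + 2) + X * (1 + X) * h := by
      rw [← hh, hg]; ring
    rw [e4, gsum, show (n + 2) / 2 + 1 = (n / 2 + 1) + 1 by omega, Finset.sum_range_succ', add_comm]
    congr 1
    · conv_lhs => rw [hb]
      rw [gsum, Finset.mul_sum]
      refine Finset.sum_congr rfl fun i _ => ?_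
      rw [show n + 2 - 2 * (i + 1) = n - 2 * i by omega]
      ring
    · simp

theorem exists_top {n : ℕ} {f : ℚ[X]} (hf : f ≠ 0) (c : ℕ → ℚ) :
    ∀ m : ℕ, f = gsum n (m + 1) c → ∃ g, g ≤ m ∧ c g ≠ 0 ∧ f = gsum n (g + 1) c := by
  intro m
  induction m with
  | zero =>
    intro h
    refine ⟨0, le_rfl, ?_, h⟩
    intro h0
    apply hf
    rw [h, gsum]
    simp [h0]
  | succ m ih =>
    intro h
    by_cases hc : c (m + 1) = 0
    · obtain ⟨g, h1, h2, h3⟩ := ih (by
        rw [h, gsum, Finset.sum_range_succ, hc, C_0, zero_mul, add_zero, gsum])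
      exact ⟨g, by omega, h2, h3⟩
    · exact ⟨m + 1, le_rfl, hc, h⟩

/-- the factor of highest order at `-1/2` -/
theorem gsum_fac {n g : ℕ} (hg : 2 * g ≤ n) (c : ℕ → ℚ) :
    ∃ q : ℚ[X], gsum n (g + 1) c = (1 + 2 * X) ^ (n - 2 * g) * q ∧ q.eval (-1 / 2) = (-1) ^ g / 4 ^ g * c g := by
  refine ⟨∑ i ∈ Finset.range (g + 1), C (c i) * (X ^ i * (1 + X) ^ i * (1 + 2 * X) ^ (2 * g - 2 * i)), ?_, ?_⟩
  · rw [gsum, Finset.mul_sum]
    refine Finset.sum_congr rfl fun i hi => ?_
    rw [Finset.mem_range] at hi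
    rw [show n - 2 * i = (n - 2 * g) + (2 * g - 2 * i) by omega, pow_add]
    ring
  · rw [eval_finsetSum, Finset.sum_range_succ, Finset.sum_eq_zero, zero_add]
    · simp only [eval_mul, eval_C, eval_pow, eval_X, eval_add, eval_one, Nat.sub_self, pow_zero, mul_one]
      rw [← mul_pow, show (-1 / 2 * (1 + -1 / 2) : ℚ) = (-1) / 4 by norm_num, div_pow]
      ring
    · intro i hi
      rw [Finset.mem_range] at hi
      have h7 : eval (-1 / 2 : ℚ) (1 + 2 * X : ℚ[X]) = 0 := by
        rw [eval_add, eval_mul, eval_one, eval_X, eval_ofNat]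
        norm_num
      rw [eval_mul, eval_mul, eval_pow (p := (1 + 2 * X : ℚ[X])), h7, zero_pow (by omega), mul_zero, mul_zero]

theorem hasse_fac (k : ℕ) (q : ℚ[X]) :
    (hasseDeriv k ((1 + 2 * X) ^ k * q)).eval (-1 / 2 : ℚ) = 2 ^ k * q.eval (-1 / 2) := by
  rw [← taylor_coeff, taylor_apply, mul_comp, pow_comp]
  have e : (1 + 2 * X : ℚ[X]).comp (X + C (-1 / 2)) = C 2 * X := by
    have h2 : (2 : ℚ[X]) = C 2 := rfl
    rw [add_comp, mul_comp, X_comp, one_comp, h2, C_comp, mul_add, ← C_mul,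
      show (2 * (-1 / 2) : ℚ) = -1 by norm_num]
    simp
  rw [e, mul_pow, ← C_pow, mul_assoc, coeff_C_mul, coeff_X_pow_mul', if_pos le_rfl, Nat.sub_self,
    coeff_zero_eq_eval_zero, eval_comp]
  simp

theorem hasse_gsum {n g : ℕ} (hg : 2 * g ≤ n) (c : ℕ → ℚ) :
    (hasseDeriv (n - 2 * g) (gsum n (g + 1) c)).eval (-1 / 2 : ℚ) =
      (-1) ^ g * (2 ^ (n - 2 * g) / 4 ^ g) * c g := by
  obtain ⟨q, h1, h2⟩ := gsum_fac hg c
  rw [h1, hasse_fac, h2]
  ring

end Pool.Agent.U297.GD
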